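import Mathlib
import Pool.Agent.Lib.MP_2f3286_ag.PA.Fam
import Pool.Agent.Lib.MP_2f3286_ag.PA.VFinal
import Pool.Agent.Lib.MP_2f3286_ag.PA.VConA
import Pool.Agent.Lib.MP_2f3286_ag.PA.SelCase
import Pool.Agent.Lib.MP_2f3286_ag.GU.CuspH
import Pool.Agent.Lib.MP_2f3286_ag.SFull.Final

/-!
# Adelic sections of the full fundamental group of an affine curve over a number field

Let `U = Spec R` be an affine curve over a number field `k` with function field `K`, let `M` be the maximal
extension of `K` unramified over `U`, so that `Gal(M/K) = π₁(U)`, and let `s` be a section of `π₁(U) → G_k` that is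
locally the section of a point of `U` at every finite place not in a finite set `S`, such that at almost all places
the order of contact with the boundary is `0` or not divisible by a fixed number `N`. Then `s` is over a finite
extension of `k` the section of a point of `U`, at which all functions of the ring generated by the units of the
coverings of `U` are rational, with the same values as at the local points, if one of the following holds.

* (A) There are units `e 0, …, e n` on a covering of `U` such that every set of at most `m [L:F]` of their poles,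
  which contains a pole of `e 0`, is contained in the set of zeros of one of them (so if `U` is the projective line
  without more than `[k:ℚ]` rational points).
* (B) The field `k` is `ℚ` and `U` has a map to a curve `y ^ 2 = P(x) (x ^ 2 + a x + b)`, where the two factors are
  coprime over `ℤ` (so if `U` is the elliptic curve `y ^ 2 = x ^ 3 + a x ^ 2 ± x` without the origin), or to a curve
  `y ^ p = F(x) F^c(x)`, where `F` is a monic polynomial over the integers of an imaginary quadratic field, with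
  constant difference from its conjugate (so for `y ^ p = f(x) ^ 2 + C`, `f ∈ ℤ[X]` monic, `C > 3` squarefree, not `7`
  modulo `8`, `p` odd and prime to the class number of `ℚ(√-C)`).
* (C) The field `k` is `ℚ` or imaginary quadratic and `U` has a map to a curve `m y ^ 2 = f(x)` all classes of whose
  Selmer set are trivial on some pair of roots of `f` (by Poonen and Stoll so for `y ^ 2 = f(x)` over `ℚ` for most
  `f` of degree `2 g + 1`, as `g → ∞`).
-/

open IsDedekindDomain NumberField Polynomial

namespace Pool.Agent.Results.MP_2f3286_ag.AdelicSections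

/-- `Respects s F ι φ`, for a homomorphism `φ` from a subring `B` of `M` to `Fb`, an algebraic
closure of `F`, and an embedding `ι : kb → Fb`: `φ` extends `ι` and intertwines the action on `B` of
`Gal(Fb/F)` through the section `s` with the Galois action, i.e. over `F` the section `s` is the
section of the point `φ`. -/
def Respects {k K M kb : Type*} [Field k] [Field kb] [Algebra k kb] [Field K] [Field M]
    [Algebra K M] [Algebra kb M] {C : Type*} [SetLike C M] [SubringClass C M] {B : C}
    (s : Gal(kb/k) →* Gal(M/K)) (F : Type*) {Fb : Type*} [Field F] [Field Fb] [Algebra F Fb]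
    (ι : kb →+* Fb) (φ : B →+* Fb) : Prop :=
  (∀ (a : kb) (b : B), (b : M) = algebraMap kb M a → φ b = ι a) ∧
  ∀ (σ : Gal(kb/k)) (τ : Gal(Fb/F)), (∀ a, ι (σ a) = τ (ι a)) →
    ∀ b b' : B, (b' : M) = s σ b → φ b' = τ (φ b)

/-- `Ψ` is a `kb`-point of the integral closure of `R` in `M`. -/
def IsPt (R M kb : Type*) [CommRing R] [Field M] [Field kb] [Algebra R M] [Algebra kb M]
    (Ψ : integralClosure R M →+* kb) : Prop :=
  ∀ (a : kb) (b : integralClosure R M), (b : M) = algebraMap kb M a → Ψ b = a

/-- The restriction of the section `s` to the subgroup `Δ` is the section of the point `Ψ`. -/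
def IsSectionOn {k R K M kb : Type*} [Field k] [CommRing R] [Field kb] [Algebra k kb] [Field K]
    [Field M] [Algebra K M] [Algebra R M] [Algebra kb M] (s : Gal(kb/k) →* Gal(M/K))
    (Δ : Subgroup Gal(kb/k)) (Ψ : integralClosure R M →+* kb) : Prop :=
  IsPt R M kb Ψ ∧ ∀ σ ∈ Δ, ∀ b b' : integralClosure R M, (b' : M) = s σ b → Ψ b' = σ (Ψ b)

/-- `M` is the maximal extension of `K` that is unramified over the curve with ring of functions `R`: the elements
of an algebraic closure `Ω` of `M` that are in `M` are those fixed by all inertia elements, i.e. the automorphisms of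
`Ω` over `K` that fix a `kb`-point of the integral closure of `R` in `Ω`. -/
def IsMaxUnram (R K M kb : Type*) [CommRing R] [Field K] [Field M] [Field kb] [Algebra R M]
    [Algebra K M] [Algebra kb M] : Prop :=
  ∀ x : AlgebraicClosure M, (∃ m : M, algebraMap M (AlgebraicClosure M) m = x) ↔
    ∀ (g : Gal(AlgebraicClosure M/K)) (Ψ : integralClosure R (AlgebraicClosure M) →+* kb),
      IsPt R (AlgebraicClosure M) kb Ψ →
      (∀ b b' : integralClosure R (AlgebraicClosure M), (b' : AlgebraicClosure M) = g b → Ψ b' = Ψ b) → g x = x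

universe u

section

variable {k : Type u} [Field k] [NumberField k] {K : Type*} [Field K] [Algebra k K] {R : Subalgebra k K}
  {M : Type*} [Field M] [Algebra K M] [Algebra (AlgebraicClosure k) M] [Algebra k M] [IsScalarTower k K M]

/-- (A): there are a finite extension `L` of `k`, a subfield `F` of `L` with `m ≤ 2` places that are infinite or in
`S₀`, a set of finite places over which lie all places of `L` above `S`, and elements `e 0, …, e n` of `M`
fixed by `s(G_L)`, which with their inverses are integral over the algebra generated by `A`, with `e 0` not constant,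
such that for any valuation rings of `M` over `kb`, at most `m [L:F]` of them, none of which contains all `e i` and
not all of which contain `e 0`, some `e j` is in the maximal ideals of all of them. -/
def CaseA (S : Finset (HeightOneSpectrum (𝓞 k))) (A : Finset R)
    (s : Gal(AlgebraicClosure k/k) →* Gal(M/K)) : Prop :=
  ∃ (L : IntermediateField k (AlgebraicClosure k)) (_ : NumberField L)
    (F : Type u) (_ : Field F) (_ : NumberField F) (_ : Algebra F L) (S₀ : Finset (HeightOneSpectrum (𝓞 F)))
    (n : ℕ) (e : Fin (n + 1) → M),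
    (∀ w : HeightOneSpectrum (𝓞 L), (∃ v ∈ S, w.asIdeal.LiesOver v.asIdeal) →
      ∃ w₀ ∈ S₀, w.asIdeal.LiesOver w₀.asIdeal) ∧
    Nat.card (InfinitePlace F) + S₀.card ≤ 2 ∧
    (∀ j, e j ≠ 0 ∧ IsIntegral (Algebra.adjoin k (algebraMap R M '' (A : Set R))) (e j) ∧
      IsIntegral (Algebra.adjoin k (algebraMap R M '' (A : Set R))) (e j)⁻¹) ∧
    (∀ σ ∈ L.fixingSubgroup, ∀ j, s σ (e j) = e j) ∧
    (∀ a : AlgebraicClosure k, algebraMap _ M a ≠ e 0) ∧
    ∀ C : Finset (ValuationSubring M), C.card ≤ (Nat.card (InfinitePlace F) + S₀.card) * Module.finrank F L →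
      (∀ V ∈ C, (∀ a : AlgebraicClosure k, algebraMap _ M a ∈ V) ∧ ∃ i, e i ∉ V) → (∃ V ∈ C, e 0 ∉ V) →
      ∃ j, ∀ V ∈ C, e j ∈ V.nonunits

variable (k) in
/-- (B): the field `k` is `ℚ`, and `y ^ 2 = P(x) (x ^ 2 + a x + b)`, where the two polynomials are coprime over `ℤ`
and the second is not a square; or `y ^ p = f(x)` with `f = F F^c`, where `F` is a monic polynomial over the integers of an
imaginary quadratic field `E`, `c` is an automorphism of `E`, the difference of `F` and `F^c` is a constant
`δ ≠ 0` all of whose prime divisors are invariant under `c`, and the odd prime `p` does not divide the class number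
and the order of the unit group of `E`. -/
def CaseB (x y : R) : Prop :=
  Module.finrank ℚ k = 1 ∧
  ((∃ (P A B : ℤ[X]) (a b : ℤ), a ^ 2 ≠ 4 * b ∧ A * P + B * (X ^ 2 + C a * X + C b) = 1 ∧
      (y : K) ^ 2 = aeval (x : K) (P * (X ^ 2 + C a * X + C b))) ∨
    ∃ (E : IntermediateField k (AlgebraicClosure k)) (_ : NumberField E) (p : ℕ) (F : (𝓞 E)[X]) (c : E ≃ₐ[k] E)
      (δ : 𝓞 E) (f : k[X]), Nat.card (InfinitePlace E) = 1 ∧ p.Prime ∧
      ¬ p ∣ 2 * classNumber E * Nat.card (𝓞 E)ˣ ∧ F.Monic ∧ δ ≠ 0 ∧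
      F.map (algebraMap (𝓞 E) E) - (F.map (algebraMap (𝓞 E) E)).map (c : E →+* E) = C (δ : E) ∧
      (∀ w : HeightOneSpectrum (𝓞 E), δ ∈ w.asIdeal → ∀ a, w.valuation E (c a) = w.valuation E a) ∧
      f.map (algebraMap k E) = F.map (algebraMap (𝓞 E) E) * (F.map (algebraMap (𝓞 E) E)).map (c : E →+* E) ∧
      (y : K) ^ p = aeval (x : K) f)

/-- (C): the field `k` is `ℚ` or imaginary quadratic, `m y ^ 2 = f(x)`, where `f` is a separable polynomial over `k`,
at the real place `s` is the section of a point, and for each element `d` of the Selmer set of this curve (a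
`G_k`-equivariant map from the roots of `f` to `kb ^ ×`, whose product times `m lc(f)` is a square in `k`, which is at
each place of `k` the class of a point) there are two roots `α ≠ β` of `f` such that `d(α) d(β)` is the square of an
element fixed by the stabilizer of `{α, β}`. -/
def CaseC (s : Gal(AlgebraicClosure k/k) →* Gal(M/K)) (x y : R) : Prop :=
  Nat.card (InfinitePlace k) = 1 ∧
  ∃ (f : k[X]) (m : k), f.Separable ∧ algebraMap k K m * (y : K) ^ 2 = aeval (x : K) f ∧
    (∀ τ : AlgebraicClosure k →+* ℂ,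
      (∀ a : k, starRingEnd ℂ (τ (algebraMap k _ a)) = τ (algebraMap k _ a)) →
      ∃ ψ : integralClosure R M →+* ℂ, Respects s ℝ τ ψ) ∧
    ∀ d : AlgebraicClosure k → AlgebraicClosure k,
      (∀ α, aeval α f = 0 → d α ≠ 0 ∧ ∀ σ : Gal(AlgebraicClosure k/k), d (σ α) = σ (d α)) →
      (∃ q : k, algebraMap k (AlgebraicClosure k) (q ^ 2) = algebraMap k _ (m * f.leadingCoeff) *
        ((f.aroots (AlgebraicClosure k)).map d).prod) →
      -- at the finite places: some point `(t, u)` over `k_v` has the class `d`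
      (∀ v : HeightOneSpectrum (𝓞 k), ∃ (ι : AlgebraicClosure k →ₐ[k] AlgebraicClosure (v.adicCompletion k))
        (t u : v.adicCompletion k), ι (algebraMap k _ m) * algebraMap _ _ u ^ 2 =
          f.eval₂ ((ι : _ →+* AlgebraicClosure (v.adicCompletion k)).comp (algebraMap k (AlgebraicClosure k)))
            (algebraMap _ _ t) ∧
        ∀ α, aeval α f = 0 → ∃ b ∈ IntermediateField.adjoin (v.adicCompletion k) {ι α},
          algebraMap _ _ t - ι α = ι (d α) * b ^ 2) →
      -- at the real places
      (∀ τ : AlgebraicClosure k →+* ℂ,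
        (∀ a : k, starRingEnd ℂ (τ (algebraMap k _ a)) = τ (algebraMap k _ a)) →
        ∃ t u : ℝ, τ (algebraMap k _ m) * (u : ℂ) ^ 2 =
          f.eval₂ (τ.comp (algebraMap k (AlgebraicClosure k))) (t : ℂ) ∧
        ∀ α, aeval α f = 0 → ∃ b ∈ IntermediateField.adjoin ℝ {τ α}, (t : ℂ) - τ α = τ (d α) * b ^ 2) →
      ∃ α β w : AlgebraicClosure k, aeval α f = 0 ∧ aeval β f = 0 ∧ α ≠ β ∧ w ^ 2 = d α * d β ∧
        ∀ σ : Gal(AlgebraicClosure k/k), (σ α = α ∧ σ β = β) ∨ (σ α = β ∧ σ β = α) → σ w = w

end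

theorem result {k : Type u} [Field k] [NumberField k] {K : Type*} [Field K] [Algebra k K]
    (htr : Algebra.trdeg k K = 1) (hK : (⊤ : IntermediateField k K).FG)
    (R : Subalgebra k K) (hR : ∀ y : K, IsIntegral R y → y ∈ R) (hfg : R.FG)
    {M : Type*} [Field M] [Algebra K M] [IsGalois K M]
    [Algebra (AlgebraicClosure k) M] [Algebra k M]
    [IsScalarTower k K M] [IsScalarTower k (AlgebraicClosure k) M]
    (hM : IsMaxUnram R K M (AlgebraicClosure k))
    (s : Gal(AlgebraicClosure k/k) →* Gal(M/K)) (hs : Continuous s)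
    (hsec : ∀ σ a, s σ (algebraMap (AlgebraicClosure k) M a) =
      algebraMap (AlgebraicClosure k) M (σ a))
    (S : Finset (HeightOneSpectrum (𝓞 k)))
    (ι : ∀ v : {v : HeightOneSpectrum (𝓞 k) // v ∉ S},
      AlgebraicClosure k →ₐ[k] AlgebraicClosure (v.1.adicCompletion k))
    (φ : ∀ v : {v : HeightOneSpectrum (𝓞 k) // v ∉ S},
      integralClosure R M →+* AlgebraicClosure (v.1.adicCompletion k))
    (hφ : ∀ v, Respects s (v.1.adicCompletion k)
      (ι v : _ →+* AlgebraicClosure (v.1.adicCompletion k)) (φ v))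
    (A : Finset R) (T : Finset (HeightOneSpectrum (𝓞 k))) (N : ℕ) (hN : 1 ≤ N)
    (hint : ∀ v, v.1 ∉ T → ∀ a ∈ A, ∀ y z : v.1.adicCompletion k,
      φ v (algebraMap R (integralClosure R M) a) = algebraMap _ _ y →
      Valued.v y = Valued.v z ^ N → Valued.v y ≤ 1)
    (x y : R)
    (hcase : CaseA S A s ∨
      (S = ∅ ∧ x ∈ A ∧ (∀ a : AlgebraicClosure k, algebraMap _ M a ≠ algebraMap R M x) ∧
        (CaseB k x y ∨ CaseC s x y))) :
    (∃ (Δ : Subgroup Gal(AlgebraicClosure k/k)) (Ψ : integralClosure R M →+* AlgebraicClosure k),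
      -- over a finite extension of `k` the section is the section of the point `Ψ`
      IsOpen (Δ : Set Gal(AlgebraicClosure k/k)) ∧ IsSectionOn s Δ Ψ ∧
      -- the point is rational for the functions in the ring generated by the units, and gives the local points
      (∀ r : R, algebraMap R M r ∈ Subring.closure {b : M | IsIntegral R b ∧ IsIntegral R b⁻¹} →
        ∃ c : k, Ψ (algebraMap R _ r) = algebraMap k _ c ∧
          ∀ v, φ v (algebraMap R _ r) = ι v (algebraMap k _ c)) ∧
      -- over `k`, if the image of `Ψ` in `U` is rational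
      ((∀ r : R, ∃ c : k, Ψ (algebraMap R _ r) = algebraMap k _ c) → IsSectionOn s ⊤ Ψ) ∧
      -- uniqueness
      ((∀ r : R, algebraMap R M r ∈ Subring.closure {b : M | IsIntegral R b ∧ IsIntegral R b⁻¹}) →
        ∀ Ψ' : integralClosure R M →+* AlgebraicClosure k, IsSectionOn s ⊤ Ψ' → Ψ' = Ψ)) ∧
    -- `x` and `y` are in this ring, in the last two cases
    (S = ∅ → (∀ a : AlgebraicClosure k, algebraMap _ M a ≠ algebraMap R M x) → (CaseB k x y ∨ CaseC s x y) →
      algebraMap R M x ∈ Subring.closure {b : M | IsIntegral R b ∧ IsIntegral R b⁻¹} ∧ algebraMap R M y ∈ Subring.closure {b : M | IsIntegral R b ∧ IsIntegral R b⁻¹}) := by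
  have hmax' : Pool.Agent.Lib.MP_2f3286_ag.Pt.IsMaxUnram R K M (AlgebraicClosure k) := by
    intro z
    rw [hM z]
    constructor
    · rintro h g ⟨Ψ, hΨ, hg⟩
      exact h g Ψ hΨ hg
    · exact fun h g Ψ hΨ hg => h g ⟨Ψ, hΨ, hg⟩
  have hun := Pool.Agent.Lib.MP_2f3286_ag.Pt.unram_of_max R hmax'
  have hmax := Pool.Agent.Lib.MP_2f3286_ag.Pt.radClosed_of_max R hmax'
  have htop : ∀ Ψ : integralClosure R M →+* AlgebraicClosure k,
      Respects s k (RingHom.id _) Ψ ↔ IsSectionOn s ⊤ Ψ := by
    intro Ψ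
    constructor
    · exact fun h => ⟨h.1, fun σ _ b b' hb => h.2 σ σ (fun x => rfl) b b' hb⟩
    · refine fun h => ⟨h.1, fun σ τ hστ b b' hb => ?_⟩
      have h1 : τ = σ := by
        ext x; exact (hστ x).symm
      rw [h1]
      exact h.2 σ (Subgroup.mem_top σ) b b' hb
  have htransM : ∀ b : M, (∀ a : AlgebraicClosure k, algebraMap _ M a ≠ b) → Transcendental k b := by
    intro b hb h2
    have h3 : IsIntegral (AlgebraicClosure k) b := h2.isIntegral.tower_top
    obtain ⟨a, ha⟩ := minpoly.mem_range_of_degree_eq_one (AlgebraicClosure k) b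
      (IsAlgClosed.degree_eq_one_of_irreducible _ (minpoly.irreducible h3))
    exact hb a ha
  have htrans : ∀ f : R, (∀ a : AlgebraicClosure k, algebraMap _ M a ≠ algebraMap R M f) →
      Transcendental k (f : K) := fun f hf h1 => htransM _ hf (h1.algebraMap (A := M))
  -- the cases (B) and (C)
  have hBC : S = ∅ → (CaseB k x y ∨ CaseC s x y) → Transcendental k (x : K) →
      Pool.Agent.Lib.MP_2f3286_ag.PA.NUnitData R (M := M) s x ∧ algebraMap R M x ∈ Subring.closure {b : M | IsIntegral R b ∧ IsIntegral R b⁻¹} ∧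
        algebraMap R M y ∈ Subring.closure {b : M | IsIntegral R b ∧ IsIntegral R b⁻¹} := by
    intro hS hBC hx
    subst hS
    have hfin : FiniteDimensional (IntermediateField.adjoin k {(x : K)}) K :=
      Pool.Agent.Lib.MP_2f3286_ag.SFull.finite_of_fg htr hK hx
    let ι' : ∀ v : HeightOneSpectrum (𝓞 k), AlgebraicClosure k →ₐ[k] AlgebraicClosure (v.adicCompletion k) :=
      fun v => ι ⟨v, Finset.notMem_empty v⟩
    let φ' : ∀ v : HeightOneSpectrum (𝓞 k), integralClosure R M →+* AlgebraicClosure (v.adicCompletion k) :=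
      fun v => φ ⟨v, Finset.notMem_empty v⟩
    have hφ' : ∀ v, Respects s (v.adicCompletion k)
        (ι' v : _ →+* AlgebraicClosure (v.adicCompletion k)) (φ' v) :=
      fun v => hφ ⟨v, Finset.notMem_empty v⟩
    rcases hBC with ⟨hk, ⟨P, A', B', a, b, hab, hAB, hy⟩ |
      ⟨E, _, p, F, c, δ, f, hE, hp, hdvd, hF, hδ, hFc, hw, hf, hy⟩⟩ | ⟨hcard, f, m, hf, hy, hreal, hsel⟩
    · obtain ⟨h1, h2⟩ := Pool.Agent.Lib.MP_2f3286_ag.PA.quad_data R hmax hk s hs hsec ι' φ' hφ' x y hx a b hab P
        A' B' hAB hy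
      exact ⟨h1.ndata R hx, h2⟩
    · have hp2 : p ≠ 2 := by
        rintro rfl
        exact hdvd (Dvd.intro _ (mul_assoc _ _ _).symm)
      have hp3 : ¬ p ∣ classNumber E := fun h => hdvd ((h.mul_left 2).mul_right _)
      have hp4 : ¬ p ∣ Nat.card (𝓞 E)ˣ := fun h => hdvd (h.mul_left _)
      have hy' : algebraMap R M y ^ p =
          Pool.Agent.Lib.MP_2f3286_ag.PA.evE R M x (F.map (algebraMap (𝓞 E) E)) *
          Pool.Agent.Lib.MP_2f3286_ag.PA.evE R M x ((F.map (algebraMap (𝓞 E) E)).map (c : E →+* E)) := by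
        have h1 : algebraMap R M y ^ p = algebraMap K M ((y : K) ^ p) := by
          rw [map_pow]; rfl
        have h2 : ∀ P Q : E[X], Pool.Agent.Lib.MP_2f3286_ag.PA.evE R M x P *
            Pool.Agent.Lib.MP_2f3286_ag.PA.evE R M x Q = Pool.Agent.Lib.MP_2f3286_ag.PA.evE R M x (P * Q) := by
          intro P Q
          unfold Pool.Agent.Lib.MP_2f3286_ag.PA.evE
          rw [Polynomial.map_mul, map_mul]
        rw [h1, hy, h2, ← hf]
        change _ = eval₂ (algebraMap (AlgebraicClosure k) M) (algebraMap R M x)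
          ((f.map (algebraMap k E)).map (algebraMap E (AlgebraicClosure k)))
        rw [Polynomial.map_map, eval₂_map, aeval_def, hom_eval₂]
        congr 1
        rw [← IsScalarTower.algebraMap_eq k K M, ← IsScalarTower.algebraMap_eq k E (AlgebraicClosure k),
          ← IsScalarTower.algebraMap_eq k (AlgebraicClosure k) M]
      obtain ⟨h1, h2⟩ := Pool.Agent.Lib.MP_2f3286_ag.PA.norm_data R hmax s hs hsec ι' φ' hφ' p hp hp2 x y hx E hE
        hp3 hp4 F hF c δ hδ hFc hw hy'
      exact ⟨h1.ndata R hx, h2⟩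
    · refine Pool.Agent.Lib.MP_2f3286_ag.PA.selmer_data R hmax x y hx s hs hsec ι' φ' hφ' hreal f m hf hy ?_
      intro d h1 h2 h3 h4
      obtain ⟨α, β, w, hα, hβ, hne, hw, hst⟩ := hsel d h1 h2 h3 h4
      exact ⟨⊥, inferInstance, α, β, 1, w, hα, hβ, hne, one_mem _, one_ne_zero, by rw [hw, one_mul], fun σ _ => hst σ,
        Or.inl ⟨rfl, (Pool.Agent.Lib.MP_2f3286_ag.PA.card_bot_eq k).trans hcard⟩⟩
  -- a function with finitely many values
  have hfun : ∃ f : R, Transcendental k (f : K) ∧ algebraMap R M f ∈ Subring.closure {b : M | IsIntegral R b ∧ IsIntegral R b⁻¹} ∧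
      ∃ (S' : Finset (HeightOneSpectrum (𝓞 k))) (χ : k[X]), S ⊆ S' ∧ χ ≠ 0 ∧
      ∀ v : {v : HeightOneSpectrum (𝓞 k) // v ∉ S}, v.1 ∉ S' →
        φ v (algebraMap R (integralClosure R M) (aeval f χ)) = 0 := by
    rcases hcase with h | ⟨hS, hxA, hx, h⟩
    · obtain ⟨L, _, F, _, _, _, S₀, n, e, h1, h2, h3, h4, h5, h6⟩ := h
      have hfinL : FiniteDimensional k L := Module.Finite.of_restrictScalars_finite ℚ k L
      rw [Nat.card_eq_fintype_card] at h2 h6
      obtain ⟨x₀, hx₀⟩ : ∃ x₀ : K, Transcendental k x₀ := by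
        have h7 : Algebra.Transcendental k K := trdeg_ne_zero_iff.mp (by rw [htr]; exact one_ne_zero)
        exact h7.transcendental
      have hfin : FiniteDimensional (IntermediateField.adjoin k {x₀}) K :=
        Pool.Agent.Lib.MP_2f3286_ag.SFull.finite_of_fg htr hK hx₀
      obtain ⟨f, hf1, hf2, -, S', χ, h7, h8, h9⟩ := Pool.Agent.Lib.MP_2f3286_ag.GU.cusp_data R hR x₀ hx₀ hmax s hs hsec
        S ι φ hφ A T N hN hint L S₀ h1 h2 e (fun j => (h3 j).1) (fun j => (h3 j).2.1) (fun j => (h3 j).2.2) h4 0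
        (htransM _ h5) h6
      exact ⟨f, hf2, hf1, S', χ, h7, h8, h9⟩
    · have hx' := htrans x hx
      obtain ⟨h1, h2, -⟩ := hBC hS h hx'
      subst hS
      let ι' : ∀ v : HeightOneSpectrum (𝓞 k), AlgebraicClosure k →ₐ[k] AlgebraicClosure (v.adicCompletion k) :=
        fun v => ι ⟨v, Finset.notMem_empty v⟩
      let φ' : ∀ v : HeightOneSpectrum (𝓞 k), integralClosure R M →+* AlgebraicClosure (v.adicCompletion k) :=
        fun v => φ ⟨v, Finset.notMem_empty v⟩
      have hφ' : ∀ v, Respects s (v.adicCompletion k)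
          (ι' v : _ →+* AlgebraicClosure (v.adicCompletion k)) (φ' v) :=
        fun v => hφ ⟨v, Finset.notMem_empty v⟩
      obtain ⟨-, χ, hχ, hvan⟩ := Pool.Agent.Lib.MP_2f3286_ag.PA.ndata_chi R s hs hsec hmax ι' φ' hφ' x hx' h1 T N hN
        (fun v hv => hint ⟨v, Finset.notMem_empty v⟩ hv x hxA)
      exact ⟨x, hx', h2, ∅, χ, Finset.empty_subset _, hχ, fun v _ => hvan v.1⟩
  obtain ⟨f, hf, hfU, S', χ, hSS', hχ, hvan⟩ := hfun
  have hfin : FiniteDimensional (IntermediateField.adjoin k {(f : K)}) K :=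
    Pool.Agent.Lib.MP_2f3286_ag.SFull.finite_of_fg htr hK hf
  obtain ⟨Δ, Ψ, h1, h2, h3, h4, -, h6, h7⟩ := Pool.Agent.Lib.MP_2f3286_ag.GU.gu_final2 R hR hfg f hf hfU
    (fun Ψ hΨ g _ hg => hun Ψ hΨ g hg) hmax s hs hsec S ι φ hφ S' hSS' χ hχ hvan
  refine ⟨⟨Δ, Ψ, h1, ⟨h2, h3⟩, h4, fun hk => (htop Ψ).mp (h6 hk), fun hRU Ψ' hΨ' => h7 hRU Ψ' ((htop Ψ').mpr hΨ')⟩,
    fun hS hx h => (hBC hS h (htrans x hx)).2⟩

end Pool.Agent.Results.MP_2f3286_ag.AdelicSections
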