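import Mathlib
import Pool.Agent.Lib.MP_2f3286_ag.Fer.FullM
import Pool.Agent.Lib.MP_2f3286_ag.Fer.Tp.FullM
import Pool.Agent.Lib.MP_2f3286_ag.Gl.FullM
import Pool.Agent.Lib.MP_2f3286_ag.Pp.Fin2
import Pool.Agent.Lib.MP_2f3286_ag.Ep.G8
import Pool.Agent.Lib.MP_2f3286_ag.Fc.FcK

/-!
# Sections and Fermat curves of prime exponent

Let `p` be an odd prime, in (1) to (5) not dividing the class number of the `p`-th cyclotomic field, `k`
a subfield of this field, `K` the function field of a curve over `k` with a nonconstant map to the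
Fermat curve `x ^ p + y ^ p = 1`; if `k` is the field of rational numbers (more generally, if all
units of `k` are `p`-th powers) it is enough that the curve has a nonconstant map to one of the curves
`A ^ a (1 - A) ^ b = B ^ p`, `p` not dividing `a`, `b`, `a + b`.

Let `U` be the curve of the places at which the functions in `R` are finite, proper or not, and `s` a
section of its fundamental group, or of a quotient of this group which has all the coverings given by
`p`-th roots of units.

(1) A local condition at `p` only. If `s` is, over the completion of `k` at the prime above `p`, the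
section of a point of the curve (geometric or cuspidal), then `A` is `0`, `1` or `∞` at this point;
nothing is assumed at the other primes, at which the section need not be that of a point. Here `U` is
any curve, proper or affine, and `M` has all unramified coverings of `U` given by `p`-th roots; if `A`
and `1 - A` are units on `U` the `p`-th roots of units on `U` are enough.

(2) The pro-`p` section. In the situation of (1) let `N` be the smallest subfield of `M` which contains
the algebraic closure of `k` and `x`, `y` with `x ^ p = A`, `y ^ p = 1 - A`, and the `p`-th roots of its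
elements whose orders at all places of `N` are divisible by `p`: the function field of the universal
pro-`p` covering of the Fermat curve over the algebraic closure of `k`. The section of the geometrically
pro-`p` fundamental group of the Fermat curve given by `s` is the section of a point over `k`, the
point of (1), which is a cusp. In particular (`M = N`) a section of the geometrically pro-`p`
fundamental group of the Fermat curve which is geometric over the completion at the prime above `p`
is geometric.

(3) If `s` is over each completion of `k` the section of a point of the curve, then one of the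
functions `A`, `1 - A`, `1 - 1 / A` is a unit at all these points and equal to `1` at the points over
the prime above `p`; `U` is any curve here, for instance the proper one. If `A` and `1 - A` are units
on `U` and `s` is a section of the fundamental group, it is equal to `1` at all these points: the
section is cuspidal over all completions.

(4) A section of the absolute Galois group of `K` is over each completion the section of a point; it
is the section of exactly one place of `K`, which is `k`-rational with `A = 0`, `1` or `∞`.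

(5) Sections of the geometrically pro-`p` absolute Galois group of `K`: `M` is only closed under `p`-th
roots. Every section is over the completion at the prime above `p` the section of a place, so by (1)
and (2) the section of the geometrically pro-`p` fundamental group of the Fermat curve which it induces
is that of a cusp. Nothing is assumed on the section.

(6) The first case, for irregular `p` too. Let `k` be the field of rational numbers and `r = 2`, or
`r = 3` and `p > 3`, such that `r ^ (p - 1)` is not congruent to `1` modulo `p ^ 2` (no prime `p` is known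
for which this fails for both `r`). Let `s` be a section of the fundamental group of any curve `U` as in
(1), which is over the completions at `p` and at `r` the section of a point. Then `A` is congruent to `0`,
`1` or `∞` modulo `p` at the point over `p`. For sections of the absolute Galois group of `K` nothing is
assumed: the theorems of Wieferich and Mirimanoff on the first case of Fermat's last theorem for
sections.
-/

open IsDedekindDomain NumberField
open scoped WithZero
open Pool.Agent.Lib.MP_2f3286_bir Pool.Agent.Lib.MP_2f3286_ag.Pt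

namespace Pool.Agent.Results.MP_2f3286_ag.FermatRegular

universe u

/-- The `p`-th roots of the elements of `M` whose orders at the places over `U` are divisible by `p`
belong to `M`; `U` is the curve of the places at which the functions in `R` are finite. -/
def UnramRoots {k K : Type*} [Field k] [Field K] [Algebra k K] (p : ℕ) (R : Subalgebra k K)
    (M : Type*) [Field M] [Algebra K M] (kb : Type*) [Field kb] [Algebra kb M] : Prop :=
  ∀ ρ : M, ρ ≠ 0 → (∀ V : ValuationSubring M, IsPlcOver R kb V → DivAt p ρ V) → ∃ β : M, β ^ p = ρ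

/-- `N` is the smallest subfield of `M` which contains `kb`, `x` and `y` and, with elements of `N`
whose orders at all places of `N` over `kb` are divisible by `p`, their `p`-th roots in `M`: if
`f ^ p ∈ E` and if, at every valuation ring `Q` of `M` which contains `kb`, the element `f ^ p` has
the valuation of `c ^ p` for some `c ∈ E`, then `f ∈ E`. If `x ^ p + y ^ p = 1` this is the function
field of the universal pro-`p` covering of the Fermat curve over `kb`, in `M`. -/
def IsProPClosure {kb M : Type*} [Field kb] [Field M] [Algebra kb M] (p : ℕ) (x y : M)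
    (N : IntermediateField kb M) : Prop :=
  IsLeast {E : IntermediateField kb M | x ∈ E ∧ y ∈ E ∧ ∀ f : M, f ^ p ∈ E →
    (∀ Q : ValuationSubring M, (∀ a, algebraMap kb M a ∈ Q) →
      ∃ c ∈ E, c ≠ 0 ∧ Q.valuation (f ^ p * (c ^ p)⁻¹) = 1) → f ∈ E} N

/-- The restriction `sN` of the section `s` to the field `N` is the section, over `k`, of the
restriction to `N` of the place `(A', φ)`, `φ : A' → Fb`: this restriction is `ψ₀ : A₀ → kb`,
`A₀ = A' ∩ N`, followed by `ι : kb → Fb`. -/
def RestrictsToPlace {k kb K M Fb : Type*} [Field k] [Field kb] [Algebra k kb] [Field K] [Field M]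
    [Algebra K M] [Algebra kb M] [Algebra k M] [IsScalarTower k kb M] [Field Fb]
    (s : Gal(kb/k) →* Gal(M/K)) (N : IntermediateField kb M)
    (ι : kb →+* Fb) (A' : ValuationSubring M) (φ : A' →+* Fb) : Prop :=
  ∃ (sN : Gal(kb/k) →* Gal(N/k)) (A₀ : ValuationSubring N) (ψ₀ : A₀ →+* kb),
    (∀ σ (f : N), ((sN σ f : N) : M) = s σ f) ∧ IsPlaceOf sN k (RingHom.id kb) A₀ ψ₀ ∧
    ∀ f : N, (f ∈ A₀ ↔ (f : M) ∈ A') ∧
      ∀ (h₀ : f ∈ A₀) (h' : (f : M) ∈ A'), φ ⟨f, h'⟩ = ι (ψ₀ ⟨f, h₀⟩)

/-- `A` is `0`, `1` or `∞` at the place `(A', φ)`: one of the functions `1 - A`, `A`, `1 - 1 / A` is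
`1` there. -/
def IsCuspAt {K M Fb : Type*} [Field K] [Field M] [Algebra K M] [Field Fb] (A : K)
    (A' : ValuationSubring M) (φ : A' →+* Fb) : Prop :=
  ∃ B : K, (B = A ∨ B = 1 - A ∨ B = 1 - A⁻¹) ∧ ∃ h : algebraMap K M B ∈ A', φ ⟨_, h⟩ = 1

/-- `M` contains `x`, `y` with `x ^ p = A`, `y ^ p = 1 - A`, fixed by `s`, and the section of the
geometrically pro-`p` fundamental group of the Fermat curve given by `s` is, over `k`, the section of
the restriction of the place `(A', φ)`. -/
def IsFermatSection {k kb K M Fb : Type*} [Field k] [Field kb] [Algebra k kb] [Field K] [Field M]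
    [Algebra K M] [Algebra kb M] [Algebra k M] [IsScalarTower k kb M] [Field Fb] (p : ℕ) (A : K)
    (s : Gal(kb/k) →* Gal(M/K)) (ι : kb →+* Fb) (A' : ValuationSubring M) (φ : A' →+* Fb) : Prop :=
  ∃ x y : M, (∀ σ, s σ x = x ∧ s σ y = y) ∧ x ^ p = algebraMap K M A ∧
    y ^ p = 1 - algebraMap K M A ∧
    ∃ N : IntermediateField kb M, IsProPClosure p x y N ∧ RestrictsToPlace s N ι A' φ

/-- `A` is congruent to `0`, `1` or `∞` at the place `(A', φ)` over the completion at `v`: one of the
functions `A`, `1 - A`, `1 / A` has a value of positive valuation there. -/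
def IsNearCuspAt {k K M : Type*} [Field k] [NumberField k] [Field K] [Field M] [Algebra K M] (A : K)
    (v : HeightOneSpectrum (𝓞 k)) (A' : ValuationSubring M)
    (φ : A' →+* AlgebraicClosure (v.adicCompletion k)) : Prop :=
  ∃ B : K, (B = A ∨ B = 1 - A ∨ B = A⁻¹) ∧ ∃ (h : algebraMap K M B ∈ A')
    (u : v.adicCompletion k), φ ⟨_, h⟩ = algebraMap _ _ u ∧ Valued.v u < (1 : ℤᵐ⁰)

theorem result {p : ℕ} (hp : p.Prime) (h2 : p ≠ 2)
    {k : Type u} [Field k] [NumberField k] [Algebra k (CyclotomicField p ℚ)]
    -- an extension of `k`; the function field of a curve in (2), (3) and (4)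
    {K : Type*} [Field K] [Algebra k K]
    -- the curve `U`: the places at which the functions in `R` are finite (all places if `R = k`)
    (R : Subalgebra k K)
    -- `Gal(M/K)` is the fundamental group of `U`, or `M` contains the `p`-th roots of its elements
    -- which are units at the places above `U`
    {M : Type*} [Field M] [Algebra K M] [IsGalois K M]
    [Algebra (AlgebraicClosure k) M] [Algebra k M]
    [IsScalarTower k K M] [IsScalarTower k (AlgebraicClosure k) M]
    (hM : IsMaxUnramOver R K M (AlgebraicClosure k) ∨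
      ∀ ρ : M, ρ ≠ 0 → (∀ V : ValuationSubring M, IsPlcOver R (AlgebraicClosure k) V →
        ρ ∈ V ∧ ρ⁻¹ ∈ V) → ∃ β : M, β ^ p = ρ)
    -- the curve maps to the Fermat curve, or to a quotient of it
    (A : K) (hA : ∀ c : k, A ≠ algebraMap k K c)
    (h : (∃ x y : K, x ^ p = A ∧ y ^ p = 1 - A) ∨
      ((∀ u : (𝓞 k)ˣ, ∃ v : (𝓞 k)ˣ, v ^ p = u) ∧ ∃ (a b : ℤ) (B : K), ¬ (p : ℤ) ∣ a ∧
        ¬ (p : ℤ) ∣ b ∧ ¬ (p : ℤ) ∣ a + b ∧ A ^ a * (1 - A) ^ b = B ^ p))
    -- a section
    (s : Gal(AlgebraicClosure k/k) →* Gal(M/K)) (hs : Continuous s)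
    (hsec : ∀ σ a, s σ (algebraMap (AlgebraicClosure k) M a) =
      algebraMap (AlgebraicClosure k) M (σ a)) :
    (¬ p ∣ classNumber (CyclotomicField p ℚ) →
    -- (1) a place of the section over the completion at the prime above `p`, and nowhere else
    (IsMaxUnramOver R K M (AlgebraicClosure k) ∨
      UnramRoots p R M (AlgebraicClosure k) ∨ (A ∈ R ∧ A⁻¹ ∈ R ∧ (1 - A)⁻¹ ∈ R) →
      ∀ v : HeightOneSpectrum (𝓞 k), (p : 𝓞 k) ∈ v.asIdeal →
      ∀ (ι : AlgebraicClosure k →ₐ[k] AlgebraicClosure (v.adicCompletion k))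
        (A' : ValuationSubring M) (φ : A' →+* AlgebraicClosure (v.adicCompletion k)),
        IsPlaceOf s (v.adicCompletion k)
          (ι : _ →+* AlgebraicClosure (v.adicCompletion k)) A' φ → IsCuspAt A A' φ) ∧
    -- (2) the section of the geometrically pro-`p` fundamental group of the Fermat curve
    ((IsMaxUnramOver R K M (AlgebraicClosure k) ∨
      UnramRoots p R M (AlgebraicClosure k)) → Algebra.trdeg k K = 1 →
      ∀ v : HeightOneSpectrum (𝓞 k), (p : 𝓞 k) ∈ v.asIdeal →
      ∀ (ι : AlgebraicClosure k →ₐ[k] AlgebraicClosure (v.adicCompletion k))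
        (A' : ValuationSubring M) (φ : A' →+* AlgebraicClosure (v.adicCompletion k)),
        IsPlaceOf s (v.adicCompletion k)
          (ι : _ →+* AlgebraicClosure (v.adicCompletion k)) A' φ →
        IsFermatSection p A s (ι : _ →+* AlgebraicClosure (v.adicCompletion k)) A' φ) ∧
    -- (3) places of the section over all the completions
    ((IsMaxUnramOver R K M (AlgebraicClosure k) ∨
      UnramRoots p R M (AlgebraicClosure k)) → Algebra.trdeg k K = 1 →
      ∀ (ι : ∀ v : HeightOneSpectrum (𝓞 k),
        AlgebraicClosure k →ₐ[k] AlgebraicClosure (v.adicCompletion k))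
      (A' : HeightOneSpectrum (𝓞 k) → ValuationSubring M)
      (φ : ∀ v : HeightOneSpectrum (𝓞 k), A' v →+* AlgebraicClosure (v.adicCompletion k)),
      (∀ v, IsPlaceOf s (v.adicCompletion k)
        (ι v : _ →+* AlgebraicClosure (v.adicCompletion k)) (A' v) (φ v)) →
      ∃ B : K, (B = A ∨ B = 1 - A ∨ B = 1 - A⁻¹) ∧ ∀ v : HeightOneSpectrum (𝓞 k),
        ∃ u : v.adicCompletion k,
          (∃ h : algebraMap K M B ∈ A' v, φ v ⟨_, h⟩ = algebraMap _ _ u) ∧
          Valued.v u = (1 : ℤᵐ⁰) ∧ ((p : 𝓞 k) ∈ v.asIdeal → u = 1) ∧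
          (IsMaxUnramOver R K M (AlgebraicClosure k) ∨ IsRadClosedOver R M (AlgebraicClosure k) →
            A ∈ R → A⁻¹ ∈ R → (1 - A)⁻¹ ∈ R → u = 1)) ∧
    -- (4) sections of the absolute Galois group of `K`
    (IsAlgClosed M → Algebra.trdeg k K = 1 →
      ∃ (A₀ : ValuationSubring M) (ψ₀ : A₀ →+* AlgebraicClosure k),
      IsPlaceOf s k (RingHom.id _) A₀ ψ₀ ∧
      (∀ h : algebraMap K M A ∈ A₀, ψ₀ ⟨_, h⟩ = 0 ∨ ψ₀ ⟨_, h⟩ = 1) ∧
      (∀ (f : K) (h : algebraMap K M f ∈ A₀),
        ∃ a : k, ψ₀ ⟨algebraMap K M f, h⟩ = algebraMap k (AlgebraicClosure k) a) ∧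
      ∀ (A₁ : ValuationSubring M) (ψ₁ : A₁ →+* AlgebraicClosure k),
        IsPlaceOf s k (RingHom.id _) A₁ ψ₁ →
        A₁ = A₀ ∧ ∀ (a : A₁) (b : A₀), (a : M) = b → ψ₁ a = ψ₀ b) ∧
    -- (5) sections of the geometrically pro-`p` absolute Galois group of `K`
    ((∀ ρ : M, ∃ β : M, β ^ p = ρ) →
      ∀ v : HeightOneSpectrum (𝓞 k), (p : 𝓞 k) ∈ v.asIdeal →
      ∀ ι : AlgebraicClosure k →ₐ[k] AlgebraicClosure (v.adicCompletion k),
      ∃ (A' : ValuationSubring M) (φ : A' →+* AlgebraicClosure (v.adicCompletion k)),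
        IsPlaceOf s (v.adicCompletion k)
          (ι : _ →+* AlgebraicClosure (v.adicCompletion k)) A' φ ∧ IsCuspAt A A' φ ∧
        (Algebra.trdeg k K = 1 →
          IsFermatSection p A s (ι : _ →+* AlgebraicClosure (v.adicCompletion k)) A' φ))) ∧
    -- (6) the first case
    ∀ r : ℕ, (r = 2 ∨ (r = 3 ∧ p ≠ 3)) → ¬ r ^ (p - 1) ≡ 1 [MOD p ^ 2] → Module.finrank ℚ k = 1 →
      ∀ v : HeightOneSpectrum (𝓞 k), (p : 𝓞 k) ∈ v.asIdeal →
      ∀ ι : AlgebraicClosure k →ₐ[k] AlgebraicClosure (v.adicCompletion k),
      -- places of the section over the completions at `p` and at `r`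
      (IsMaxUnramOver R K M (AlgebraicClosure k) ∨ UnramRoots p R M (AlgebraicClosure k) →
        ∀ (A' : ValuationSubring M) (φ : A' →+* AlgebraicClosure (v.adicCompletion k)),
        IsPlaceOf s (v.adicCompletion k)
          (ι : _ →+* AlgebraicClosure (v.adicCompletion k)) A' φ →
        ∀ v' : HeightOneSpectrum (𝓞 k), (r : 𝓞 k) ∈ v'.asIdeal →
        ∀ (ι' : AlgebraicClosure k →ₐ[k] AlgebraicClosure (v'.adicCompletion k))
          (A'' : ValuationSubring M) (φ' : A'' →+* AlgebraicClosure (v'.adicCompletion k)),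
          IsPlaceOf s (v'.adicCompletion k)
            (ι' : _ →+* AlgebraicClosure (v'.adicCompletion k)) A'' φ' →
          IsNearCuspAt A v A' φ) ∧
      -- sections of the absolute Galois group of `K`
      (IsAlgClosed M → (∃ (A' : ValuationSubring M)
        (φ : A' →+* AlgebraicClosure (v.adicCompletion k)),
        IsPlaceOf s (v.adicCompletion k)
          (ι : _ →+* AlgebraicClosure (v.adicCompletion k)) A' φ) ∧
        ∀ (A' : ValuationSubring M) (φ : A' →+* AlgebraicClosure (v.adicCompletion k)),
        IsPlaceOf s (v.adicCompletion k)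
          (ι : _ →+* AlgebraicClosure (v.adicCompletion k)) A' φ → IsNearCuspAt A v A' φ) := by
  refine ⟨fun hh => ⟨fun hU v hv ι A' φ hφ => ?_, fun hM htr v hv ι A' φ hφ => ?_,
    fun hM htr ι A' φ hφ => ?_, fun hcl htr => ?_, fun hroot v hv ι => ?_⟩,
    fun r hr hw hk v hv ι => ⟨fun hM A' φ hφ v' hv' ι' A'' φ' hφ' => ?_, fun hcl => ?_⟩⟩
  · rw [← or_assoc] at hU
    rcases hU with hU | ⟨m1, m2, m3⟩
    · exact Pool.Agent.Lib.MP_2f3286_ag.Gl.fermat_locp2 hp h2 hh
        {V : ValuationSubring M | IsPlcOver R (AlgebraicClosure k) V} (fun V hV => hV.1.1)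
        (hU.elim (fun hM ρ hρ => radClosedOver_of_max R hM p ρ hp.one_lt.le hρ) id)
        A hA h s hs hsec v hv ι A' φ hφ
    · have m4 : 1 - A ∈ R := sub_mem (one_mem R) m1
      have hR : ∀ {f : K}, f ∈ R → ∀ V ∈ {V : ValuationSubring M |
          IsPlcOver R (AlgebraicClosure k) V}, algebraMap K M f ∈ V := fun hf V hV => hV.2 ⟨_, hf⟩
      have hA0 : A ≠ 0 := fun h0 => hA 0 (by rw [h0, map_zero])
      have hA1 : 1 - A ≠ 0 := fun h0 => hA 1 (by rw [map_one]; exact (sub_eq_zero.1 h0).symm)
      refine Pool.Agent.Lib.MP_2f3286_ag.Fer.Tp.fermat_locp hp h2 hh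
        {V : ValuationSubring M | IsPlcOver R (AlgebraicClosure k) V} (fun V hV => hV.1.1)
        (fun ρ hρ => ?_) A hA h ?_ ?_ s hs hsec (fun V hV σ => ⟨⟨fun a => ?_, fun h0 => ?_⟩,
          fun r => ?_⟩) v hv ι A' φ hφ
      · rcases hM with hM | hM
        · refine radClosedOver_of_max R hM p ρ hp.one_lt.le hρ.1 fun V hV => ⟨1, one_ne_zero, ?_⟩
          rw [one_pow, inv_one, mul_one]
          exact hρ.val hV
        · exact hM ρ hρ.1 fun V hV => hρ.2 V hV
      · exact ⟨(_root_.map_ne_zero _).2 hA0, fun V hV => ⟨hR m1 V hV, by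
          rw [← map_inv₀]; exact hR m2 V hV⟩⟩
      · exact ⟨(_root_.map_ne_zero _).2 hA1, fun V hV => ⟨hR m4 V hV, by
          rw [← map_inv₀]; exact hR m3 V hV⟩⟩
      · change s σ (algebraMap (AlgebraicClosure k) M a) ∈ V
        rw [hsec]
        exact hV.1.1 _
      · apply hV.1.2
        rw [eq_top_iff]
        intro x _
        obtain ⟨y, hy⟩ := (s σ).surjective x
        have h1 : y ∈ V.comap (s σ : M →+* M) := by rw [h0]; trivial
        rw [← hy]
        exact h1
      · change s σ (algebraMap K M r) ∈ V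
        rw [(s σ).commutes]
        exact hV.2 r
  · exact Pool.Agent.Lib.MP_2f3286_ag.Pp.fermat_pp2 hp h2 hh htr
      (fun ρ hρ hQ => hM.elim (fun hM ρ hρ => radClosedOver_of_max R hM p ρ hp.one_lt.le hρ) id
        ρ hρ fun V hV => hQ V hV.1.1)
      A hA h s hs hsec v hv ι A' φ hφ
  · obtain ⟨B, hB, hval⟩ := Pool.Agent.Lib.MP_2f3286_ag.Fer.fermat_loc hp h2 hh htr
      {V : ValuationSubring M | IsPlcOver R (AlgebraicClosure k) V} (fun V hV => hV.1.1)
      (Pool.Agent.Lib.MP_2f3286_ag.Fer.rad_of_max R
        (hM.elim (fun hM ρ hρ => radClosedOver_of_max R hM p ρ hp.one_lt.le hρ) id))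
      A hA h s hs hsec ι A' φ hφ
    refine ⟨B, hB, fun v => ?_⟩
    obtain ⟨u, hu1, hu2, hu3, hu4⟩ := hval v
    refine ⟨u, hu4, hu1, hu2, fun hmax m1 m2 m3 => hu3 ?_ fun V hV => ?_⟩
    · have hrad : IsRadClosedOver R M (AlgebraicClosure k) :=
        hmax.elim (fun hM => radClosedOver_of_max R hM) id
      intro n hn
      exact Pool.Agent.Lib.MP_2f3286_ag.Fer.rad_of_max R fun ρ hρ => hrad n ρ hn hρ
    · refine ⟨hV.2 ⟨A, m1⟩, ?_, ?_⟩
      · rw [← map_inv₀]
        exact hV.2 ⟨A⁻¹, m2⟩
      · rw [← map_inv₀]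
        exact hV.2 ⟨(1 - A)⁻¹, m3⟩
  · have : IsAlgClosure K M := ⟨hcl, inferInstance⟩
    exact Pool.Agent.Lib.MP_2f3286_ag.Fer.fermat hp h2 hh htr A hA h s hs hsec
  · obtain ⟨A', φ, hφ⟩ := Pool.Agent.Lib.MP_2f3286_ag.Ep.local_place_p hp h2 hroot s hs hsec v hv ι
    refine ⟨A', φ, hφ, ?_, fun htr => ?_⟩
    · exact Pool.Agent.Lib.MP_2f3286_ag.Gl.fermat_locp2 hp h2 hh
        {V : ValuationSubring M | IsPlcOver R (AlgebraicClosure k) V} (fun V hV => hV.1.1)
        (fun ρ hρ hQ => hroot ρ) A hA h s hs hsec v hv ι A' φ hφ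
    · exact Pool.Agent.Lib.MP_2f3286_ag.Pp.fermat_pp2 hp h2 hh htr (fun ρ hρ hQ => hroot ρ)
        A hA h s hs hsec v hv ι A' φ hφ

  · exact Pool.Agent.Lib.MP_2f3286_ag.Fc.fc_k hp h2 hr hw hk
      {V : ValuationSubring M | IsPlcOver R (AlgebraicClosure k) V} (fun V hV => hV.1.1)
      (hM.elim (fun hM ρ hρ => radClosedOver_of_max R hM p ρ hp.one_lt.le hρ) id)
      A hA (h.imp id fun h => h.2) s hs hsec v hv ι A' φ hφ v' hv' ι' A'' φ' hφ'
  · obtain ⟨v', hv'⟩ := Pool.Agent.Lib.MP_2f3286_ag.Fc.exists_above (k := k)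
      (r := r) (by rcases hr with rfl | ⟨rfl, -⟩ <;> norm_num)
    have hloc := fun v ι => Pool.Agent.Lib.MP_2f3286_ag.Koe.local_place s hs hsec v ι
    obtain ⟨ι'⟩ := Pool.Agent.Lib.MP_2f3286_ag.Fc.exists_emb v'
    obtain ⟨A'', φ', hφ'⟩ := hloc v' ι'
    exact ⟨hloc v ι, fun A' φ hφ => Pool.Agent.Lib.MP_2f3286_ag.Fc.fc_k hp h2 hr hw hk ∅
      (fun V hV => hV.elim) (fun ρ _ _ => IsAlgClosed.exists_pow_nat_eq ρ hp.pos)
      A hA (h.imp id fun h => h.2) s hs hsec v hv ι A' φ hφ v' hv' ι' A'' φ' hφ'⟩

end Pool.Agent.Results.MP_2f3286_ag.FermatRegular
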