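import Mathlib
import Pool.Agent.Lib.MP_2f3286_ag.UA.SN6
import Pool.Agent.Lib.MP_2f3286_ag.UA.LH

/-!
# The local-global principle for sections over every number field

For every function field `K` of a geometrically irreducible curve over a number field `k` there is an
extension `K'` of `K` of degree at most `4` (at most `2` if `-1` is a square in `k`), with the same
constants and with rational places above given rational places of `K`, such that for every algebraic
extension `L` of `K'` every section of the absolute Galois group of `L`, or of its geometrically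
prosolvable quotient, is the section of exactly one place; and there are arbitrarily small affine
curves `U` with function field `K` and finite étale coverings `U'` of `U` with function field `K'` such
that the sections `s` of the fundamental group of `U'` satisfy the local-global principle: `s` is over `k`
the section of exactly one place if and only if it is over the completion of `k` at every finite place
the section of a place, and if and only if it lifts to a section of the absolute Galois group of `K'`.
-/

open Polynomial IsDedekindDomain NumberField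
open Pool.Agent.Lib.MP_2f3286_ag
open Pool.Agent.Lib.MP_2f3286_ag.Sel (IsPlaceOf)
open Pool.Agent.Lib.MP_2f3286_ag.Pt (IsMaxUnramOver)

namespace Pool.Agent.Results.MP_2f3286_ag.LocalGlobalSections

/-- The elements of `L` which are algebraic over `k` are in `k`. -/
def NoNewConstants (k L : Type*) [Field k] [Field L] [Algebra k L] : Prop :=
  ∀ a : L, IsAlgebraic k a → ∃ c : k, a = algebraMap k L c

/-- `V` is the valuation ring of a rational place of `L` over `k`. -/
def IsRationalPlace (k : Type*) {L : Type*} [Field k] [Field L] [Algebra k L]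
    (V : ValuationSubring L) : Prop :=
  V ≠ ⊤ ∧ (∀ c : k, algebraMap k L c ∈ V) ∧
    ∀ x ∈ V, ∃ c : k, V.valuation (x - algebraMap k L c) < 1

/-- `R` is the ring of functions of a normal affine curve with function field `K`. -/
def IsAffineCurve {k K : Type*} [Field k] [Field K] [Algebra k K] (R : Subalgebra k K) : Prop :=
  R.FG ∧ ∀ h : K, IsIntegral R h → h ∈ R

universe u v w x

section Definitions

variable {k : Type*} [Field k] {K : Type*} [Field K] {M : Type*} [Field M]
  [Algebra K M] [Algebra (AlgebraicClosure k) M] (s : Gal(AlgebraicClosure k/k) →* Gal(M/K))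

/-- `s` is a continuous section of the projection of `Gal(M/K)` to the absolute Galois group of `k`. -/
def IsSection : Prop :=
  Continuous s ∧ ∀ σ a, s σ (algebraMap (AlgebraicClosure k) M a) =
    algebraMap (AlgebraicClosure k) M (σ a)

/-- `s` is over `k` the section of the place `(A₀, ψ₀)`, and over every finite extension of `k` it is the
section of no other place. -/
def IsOnlyPlace (A₀ : ValuationSubring M) (ψ₀ : A₀ →+* AlgebraicClosure k) : Prop :=
  IsPlaceOf s k (RingHom.id _) A₀ ψ₀ ∧
    ∀ (E : IntermediateField k (AlgebraicClosure k)), FiniteDimensional k E →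
      ∀ (A₁ : ValuationSubring M) (ψ₁ : A₁ →+* AlgebraicClosure k),
      IsPlaceOf s E (RingHom.id _) A₁ ψ₁ →
      A₁ = A₀ ∧ ∀ (a : A₁) (b : A₀), (a : M) = b → ψ₁ a = ψ₀ b

/-- `s` is over `k` the section of exactly one place. -/
def OnePlace : Prop :=
  ∃ (A₀ : ValuationSubring M) (ψ₀ : A₀ →+* AlgebraicClosure k), IsOnlyPlace s A₀ ψ₀

/-- `s` is over the completion of `k` at every finite place the section of a place. -/
def LocalPlaces [NumberField k] : Prop :=
  ∀ v : HeightOneSpectrum (𝓞 k),
    ∃ (ι : AlgebraicClosure k →ₐ[k] AlgebraicClosure (v.adicCompletion k))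
      (A : ValuationSubring M) (φ : A →+* AlgebraicClosure (v.adicCompletion k)),
      IsPlaceOf s (v.adicCompletion k)
        (ι : _ →+* AlgebraicClosure (v.adicCompletion k)) A φ

/-- `s` lifts to a section of the absolute Galois group of `K`. -/
def Lifts : Prop :=
  ∃ t : Gal(AlgebraicClosure k/k) →* Gal(AlgebraicClosure M/K), Continuous t ∧
    ∀ σ m, t σ (algebraMap M (AlgebraicClosure M) m) =
      algebraMap M (AlgebraicClosure M) (s σ m)

/-- For every valuation ring `O` of the algebraic closure of `k` with residue characteristic a prime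
number `q`, the restriction of `s` to the decomposition group of `O` lifts to the Galois group of an
extension `N` of `K` which contains `M` and is closed under `q`-th roots. -/
def LiftsLocally {k : Type u} [Field k] {K : Type w} [Field K] {M : Type x} [Field M] [Algebra K M]
    (s : Gal(AlgebraicClosure k/k) →* Gal(M/K)) : Prop :=
  ∀ (O : ValuationSubring (AlgebraicClosure k)) (q : ℕ), q.Prime → (q : AlgebraicClosure k)⁻¹ ∉ O →
    ∃ (N : Type x) (_ : Field N) (_ : Algebra K N) (_ : Algebra M N) (_ : IsScalarTower K M N)
      (_ : IsGalois K N) (t : O.decompositionSubgroup k →* Gal(N/K)), Continuous t ∧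
      (∀ z : N, ∃ y : N, y ^ q = z) ∧
      ∀ (σ : O.decompositionSubgroup k) (m : M),
        t σ (algebraMap M N m) = algebraMap M N (s (σ : Gal(AlgebraicClosure k/k)) m)

/-- The functions in `R` are finite at all the places of which `s` is the section over a completion of
`k` if and only if they are finite at the places of which `s` is the section over `k`. -/
def SameKind [NumberField k] [Algebra k K] (R : Subalgebra k K) : Prop :=
  ∀ (A₀ : ValuationSubring M) (ψ₀ : A₀ →+* AlgebraicClosure k), IsPlaceOf s k (RingHom.id _) A₀ ψ₀ →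
    ∀ (v : HeightOneSpectrum (𝓞 k))
      (ι : AlgebraicClosure k →ₐ[k] AlgebraicClosure (v.adicCompletion k))
      (A : ValuationSubring M) (φ : A →+* AlgebraicClosure (v.adicCompletion k)),
      IsPlaceOf s (v.adicCompletion k) (ι : _ →+* AlgebraicClosure (v.adicCompletion k)) A φ →
      ((∀ r : R, algebraMap K M r ∈ A) ↔ ∀ r : R, algebraMap K M r ∈ A₀)

end Definitions

/-- For every Galois extension `M` of `K` which contains the algebraic closure of `k` and is closed under
`n`-th roots for all `n`, for example for the algebraic closure of `K`, every section of `Gal(M/K)` is the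
section of exactly one place. -/
def Birational (k : Type u) (K : Type v) [Field k] [Field K] [Algebra k K] : Prop :=
  ∀ (M : Type w) [Field M] [Algebra K M] [IsGalois K M] [Algebra (AlgebraicClosure k) M]
    [Algebra k M] [IsScalarTower k K M] [IsScalarTower k (AlgebraicClosure k) M],
    (∀ n : ℕ, 1 ≤ n → ∀ z : M, ∃ y : M, y ^ n = z) →
    ∀ s : Gal(AlgebraicClosure k/k) →* Gal(M/K), IsSection s → OnePlace s

/-- `R` and its integral closure `R'` in `K'` are the rings of functions of affine curves `U` and `U'`;
`U'` is a finite étale covering of `U`: the maximal unramified extension `M` of `K'` over `U'` is the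
maximal unramified extension of `K` over `U`, `Gal(M/K)` is the fundamental group of `U`, and the subgroup
`Gal(M/K')` is the fundamental group of `U'`; the sections `s` of the latter satisfy the local-global
principle: `s` is the section of exactly one place over `k` if and only if it is a section of a place over
all completions, if and only if it lifts to a section of the absolute Galois group of `K'`, and if and
only if it lifts locally. -/
def LocalGlobal (k : Type u) {K K' : Type v} [Field k] [NumberField k] [Field K] [Algebra k K]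
    [Field K'] [Algebra K K'] [Algebra k K'] (R : Subalgebra k K) (R' : Subalgebra k K') : Prop :=
  IsAffineCurve R ∧ IsAffineCurve R' ∧ (∀ h : K', h ∈ R' ↔ IsIntegral R h) ∧
    ∀ (M : Type w) [Field M] [Algebra K M] [Algebra K' M] [IsScalarTower K K' M] [IsGalois K' M]
      [Algebra (AlgebraicClosure k) M] [Algebra k M] [IsScalarTower k K' M]
      [IsScalarTower k (AlgebraicClosure k) M],
      IsMaxUnramOver R' K' M (AlgebraicClosure k) →
      (IsMaxUnramOver R K M (AlgebraicClosure k) ∧ IsGalois K M) ∧
      ∀ s : Gal(AlgebraicClosure k/k) →* Gal(M/K'), IsSection s →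
        (OnePlace s ↔ LocalPlaces s) ∧ (OnePlace s ↔ Lifts s) ∧ (OnePlace s ↔ LiftsLocally s) ∧
        SameKind s R'

theorem result (k : Type u) [Field k] [NumberField k] (K : Type v) [Field K] [Algebra k K] :
    Algebra.trdeg k K = 1 → (⊤ : IntermediateField k K).FG → NoNewConstants k K →
    ∀ S : Set (ValuationSubring K), S.Finite → (∀ V ∈ S, IsRationalPlace k V) →
    ∃ (K' : Type v) (_ : Field K') (_ : Algebra K K') (_ : Algebra k K')
      (_ : IsScalarTower k K K'),
      FiniteDimensional K K' ∧ Module.finrank K K' ≤ 4 ∧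
      (IsSquare (-1 : k) → Module.finrank K K' ≤ 2) ∧ NoNewConstants k K' ∧
      (∀ V ∈ S, ∃ V' : ValuationSubring K', IsRationalPlace k V' ∧
        V'.comap (algebraMap K K') = V) ∧
      (∀ (L : Type v) [Field L] [Algebra K' L] [Algebra k L] [IsScalarTower k K' L],
        Algebra.IsAlgebraic K' L → Birational.{u, v, w} k L) ∧
      ∀ Z : Set K', Z.Finite → ∃ (R : Subalgebra k K) (R' : Subalgebra k K'), Z ⊆ R' ∧
        LocalGlobal.{u, v, w} k R R' := by
  intro htr hfg hk S hSfin hS
  obtain ⟨K', j1, j2, j3, j4, g1, g2, g3, g4, g5, g6, g7⟩ :=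
    UA.cofinal_local_global_all.{u, v, w} k K htr hfg hk S hSfin hS
  have htr' : Algebra.trdeg k K' = 1 := by
    have h4 := _root_.trdeg_add_eq k K (A := K')
    rw [_root_.trdeg_eq_zero (R := K) (A := K'), add_zero, htr] at h4
    exact h4.symm
  refine ⟨K', j1, j2, j3, j4, g1, g2, g3, g4, g5, fun L _ _ _ _ _ M _ _ _ _ _ _ _ hrt s hs =>
    g6 L M hrt s hs.1 hs.2,
    fun Z hZ => ?_⟩
  obtain ⟨R, R', hR, hR', hRR', hZR, hsec⟩ := g7 Z hZ
  refine ⟨R, R', hZR, hR, hR', hRR', ?_⟩
  intro M _ _ _ _ _ _ _ _ _ hmax
  obtain ⟨hdown, hsec⟩ := hsec M hmax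
  refine ⟨hdown, fun s hs => ?_⟩
  -- a place over `k` gives places over the completions
  have hloc : ∀ (A₀ : ValuationSubring M) (ψ₀ : A₀ →+* AlgebraicClosure k),
      IsPlaceOf s k (RingHom.id _) A₀ ψ₀ → LocalPlaces s := by
    intro A₀ ψ₀ h v
    exact ⟨IsAlgClosed.lift, A₀, _, HYP.isPlaceOf_comp h _⟩
  have halg : Algebra.IsAlgebraic K' (AlgebraicClosure M) := Algebra.IsAlgebraic.trans K' M _
  have hcl : IsAlgClosure K' (AlgebraicClosure M) := ⟨inferInstance, halg⟩
  have hK0 : CharZero K' := charZero_of_injective_algebraMap (algebraMap k K').injective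
  have hgal : IsGalois K' (AlgebraicClosure M) := IsAlgClosure.isGalois K' (AlgebraicClosure M)
  have hlift : OnePlace s → Lifts s := by
    rintro ⟨A₀, ψ₀, h, -⟩
    obtain ⟨t, B, ψ, h1, h2, -⟩ := UA.exists_lift (Ω := AlgebraicClosure M) htr' hs.1 hs.2 h
    exact ⟨t, h1, h2⟩
  refine ⟨⟨fun ⟨A₀, ψ₀, h, _⟩ => hloc A₀ ψ₀ h, fun h => ?_⟩, ⟨hlift, ?_⟩, ⟨fun h => ?_, fun h => ?_⟩, ?_⟩
  · obtain ⟨A₀, ψ₀, h1, -⟩ := hsec s hs.1 hs.2 h
    exact ⟨A₀, ψ₀, h1⟩
  · rintro ⟨t, h1, h2⟩
    obtain ⟨B, ψ, h4, -⟩ := g6 K' (AlgebraicClosure M) (fun n hn z =>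
      IsAlgClosed.exists_pow_nat_eq z hn) t h1 fun σ a => by
      rw [IsScalarTower.algebraMap_apply (AlgebraicClosure k) M (AlgebraicClosure M), h2, hs.2,
        ← IsScalarTower.algebraMap_apply (AlgebraicClosure k) M (AlgebraicClosure M)]
    obtain ⟨φ, h5, -⟩ := UA.place_restrict h2 h4
    obtain ⟨A₀, ψ₀, h6, -⟩ := hsec s hs.1 hs.2 (hloc _ φ h5)
    exact ⟨A₀, ψ₀, h6⟩
  · obtain ⟨t, h1, h2⟩ := hlift h
    exact fun O q hq _ => ⟨AlgebraicClosure M, inferInstance, inferInstance, inferInstance,
      inferInstance, hgal, t.comp (O.decompositionSubgroup k).subtype,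
      h1.comp continuous_subtype_val, fun z => IsAlgClosed.exists_pow_nat_eq z hq.pos,
      fun σ m => h2 _ m⟩
  · obtain ⟨A₀, ψ₀, h6, -⟩ := hsec s hs.1 hs.2 (UA.local_places_of_liftsLoc s hs.2 h)
    exact ⟨A₀, ψ₀, h6⟩
  · intro A₁ ψ₁ h₁
    obtain ⟨A₀, ψ₀, h2, h3⟩ := hsec s hs.1 hs.2 (hloc A₁ ψ₁ h₁)
    have h4 : IsPlaceOf s (⊥ : IntermediateField k (AlgebraicClosure k)) (RingHom.id _) A₁ ψ₁ :=
      HYP.isPlaceOf_comp h₁ (RingHom.id _)
    obtain ⟨rfl, -⟩ := h2.2 ⊥ inferInstance A₁ ψ₁ h4
    exact h3

end Pool.Agent.Results.MP_2f3286_ag.LocalGlobalSections
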